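import Pool.Agent.Y354.DC3.Stm3

/-!
# The recursion forces `5 / 2`
-/

set_option autoImplicit false

open Finset
open scoped Classical

namespace Pool.Agent.Y155.DC4

open Pool.Agent.Y354.DC3

/-- the multiplier of the second sequence -/
noncomputable def r2 (z : ℝ) : ℝ := (17 / 2 + ps z) / mm z

theorem mm_ge {z : ℝ} (hz : 0 ≤ z) : 1 ≤ mm z := by
  rw [mm]
  linarith

theorem r2_le (h : S_PO2) {z : ℝ} (hz : 0 ≤ z) (hz1 : z ≤ 1) : 0 ≤ r2 z ∧ r2 z ≤ 10 := by
  obtain ⟨-, -, p3, -, -⟩ := h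
  obtain ⟨-, -, -, h1, h2, -⟩ := p3 z hz hz1
  have hm := mm_ge hz
  refine ⟨div_nonneg (by linarith) (by linarith), ?_⟩
  rw [r2, div_le_iff₀ (by linarith)]
  nlinarith

/-- The combination of the two inequalities of one step. -/
theorem comb {κ w l X q q' c c' t zr : ℝ} (hκ : 0 < κ) (hw : 0 < w) (hwκ : w * (κ + 1) = 1)
    (hl : 0 < l) (hX : 0 ≤ X) (hB : 4 * l * X * w ≤ 1) (hc' : 0 ≤ c')
    (F1 : q' - q ≤ c' * w)
    (F3 : κ * w * (X * (1 / 3 * c' + 4 / 3 * q')) + 5 / 6 * c ^ 2 ≤ κ ^ 2 * t)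
    (h6 : 1 - zr ≤ l * X) :
    q' - w * zr * c' ≤ q - 4 * l * w * (q * X) + (3 * l * κ * t - 5 / 2 * (l / κ) * c ^ 2) := by
  have a1 : (1 - 4 * l * X * w) * (q' - q) ≤ (1 - 4 * l * X * w) * (c' * w) :=
    mul_le_mul_of_nonneg_left F1 (by linarith)
  have a2 : 3 * (l / κ) * (κ * w * (X * (1 / 3 * c' + 4 / 3 * q')) + 5 / 6 * c ^ 2) ≤
      3 * (l / κ) * (κ ^ 2 * t) :=
    mul_le_mul_of_nonneg_left F3 (by positivity)
  have e1 : 3 * (l / κ) * (κ * w * (X * (1 / 3 * c' + 4 / 3 * q')) + 5 / 6 * c ^ 2) =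
      l * w * X * c' + 4 * (l * w * X * q') + 5 / 2 * (l / κ) * c ^ 2 := by
    field_simp
    ring
  have e2 : 3 * (l / κ) * (κ ^ 2 * t) = 3 * l * κ * t := by
    field_simp
  rw [e1, e2] at a2
  have a3 : w * c' * (1 - zr) ≤ w * c' * (l * X) :=
    mul_le_mul_of_nonneg_left h6 (mul_nonneg hw.le hc')
  have a4 : 0 ≤ 4 * l * X * w * (c' * w) := by positivity
  linarith only [a1, a2, a3, a4]

/-- one step of the barrier argument -/
theorem step (h : S_PO2) {α κ t q q' c c' : ℝ} (hα : 10 ^ 9 ≤ α) (hκα' : α ≤ 21 * κ)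
    (hκα : κ + 1 ≤ α) (hc0 : 0 ≤ c) (hcq : c ≤ 2 * q) (hq0 : 0 ≤ q) (hq1 : q ≤ 1) (hc'0 : 0 ≤ c')
    (F1 : q' - q ≤ c' / (κ + 1))
    (F3 : κ / (κ + 1) * ((1 - q) * (1 / 3 * c' + 4 / 3 * q')) + 5 / 6 * c ^ 2 ≤ κ ^ 2 * t)
    (ht : α ^ 2 * t ≤ 5 / 2)
    (ih : q - κ * r2 ((κ / α) ^ 2) / α ^ 2 * c ≤ Pb ((κ / α) ^ 2) - 21 / α) :
    q' - (κ + 1) * r2 (((κ + 1) / α) ^ 2) / α ^ 2 * c' ≤ Pb (((κ + 1) / α) ^ 2) - 21 / α := by
  have hr := @r2_le h
  obtain ⟨p1, -, p3, p4, -⟩ := h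
  have hα0 : 0 < α := by linarith [hα, (by norm_num : (0 : ℝ) < 10 ^ 9)]
  have hκ0 : 0 < κ := by linarith
  set z : ℝ := (κ / α) ^ 2 with hz
  set z' : ℝ := ((κ + 1) / α) ^ 2 with hz'
  obtain ⟨ε, hε⟩ : ∃ ε : ℝ, ε = 1 / α := ⟨_, rfl⟩
  have hε0 : 0 < ε := by rw [hε]; positivity
  have hεα : ε * α = 1 := by rw [hε]; field_simp
  have hε9 : ε ≤ 1 / 10 ^ 9 := by
    rw [hε]
    exact one_div_le_one_div_of_le (by norm_num) hα
  have hzε : z = κ ^ 2 * ε ^ 2 := by rw [hz, hε]; field_simp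
  have hz'ε : z' = (κ + 1) ^ 2 * ε ^ 2 := by rw [hz', hε]; field_simp
  have hz0 : 0 ≤ z := by positivity
  have hz'1 : z' ≤ 1 := by
    rw [hz']
    apply pow_le_one₀ (by positivity)
    rw [div_le_one hα0]
    exact hκα
  have hzz' : z ≤ z' := by
    rw [hz, hz']
    apply pow_le_pow_left₀ (by positivity)
    gcongr
    linarith
  have hz1 : z ≤ 1 := hzz'.trans hz'1
  obtain ⟨f0, f1, hd0, hps1, hps2, hmain⟩ := p3 z hz0 hz1
  obtain ⟨-, f1', -⟩ := p3 z' (hz0.trans hzz') hz'1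
  obtain ⟨hmono, hder⟩ := p4 z z' hz0 hzz' hz'1
  obtain ⟨hfz, -⟩ := p1 z
  obtain ⟨-, hp1⟩ := p1 z'
  obtain ⟨r0, r10⟩ := hr hz0 hz1
  have hm := mm_ge hz0
  have hm' := mm_ge (hz0.trans hzz')
  have hmm : mm z ≤ mm z' := by rw [mm, mm]; linarith
  obtain ⟨m, hm_def⟩ : ∃ m, m = mm z := ⟨_, rfl⟩
  obtain ⟨m', hm'_def⟩ : ∃ m', m' = mm z' := ⟨_, rfl⟩
  obtain ⟨l, hl⟩ : ∃ l, l = 1 / m := ⟨_, rfl⟩
  obtain ⟨l', hl'⟩ : ∃ l', l' = 1 / m' := ⟨_, rfl⟩
  obtain ⟨s, hs⟩ : ∃ s, s = 17 / 2 + ps z := ⟨_, rfl⟩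
  obtain ⟨s', hs'⟩ : ∃ s', s' = 17 / 2 + ps z' := ⟨_, rfl⟩
  obtain ⟨f, hf⟩ : ∃ f, f = Pb z := ⟨_, rfl⟩
  obtain ⟨f', hf'⟩ : ∃ f', f' = Pb z' := ⟨_, rfl⟩
  obtain ⟨d, hd⟩ : ∃ d, d = dPb z := ⟨_, rfl⟩
  obtain ⟨g, hg⟩ : ∃ g, g = ps z := ⟨_, rfl⟩
  have er : r2 z = s * l := by rw [r2, hs, hl, hm_def]; ring
  have er' : r2 z' = s' * l' := by rw [r2, hs', hl', hm'_def]; ring
  rw [← hm_def] at hm hmm hmain
  rw [← hm'_def] at hm' hmm hp1
  rw [← hs, ← hd, ← hg, ← hf] at hmain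
  rw [← hs', ← hf'] at hp1
  rw [← hf] at f0 f1 hmono hfz hder ih
  rw [← hf'] at f1' hmono hder ⊢
  rw [← hd] at hd0 hder
  rw [← hg] at hps1 hps2 hfz hs
  rw [er] at r0 r10 ih
  rw [er']
  have hm0 : 0 < m := by linarith
  have hm'0 : 0 < m' := by linarith
  have hl0 : 0 < l := by rw [hl]; positivity
  have hl'0 : 0 < l' := by rw [hl']; positivity
  have hlm : l * m = 1 := by rw [hl]; field_simp
  have hl'm : l' * m' = 1 := by rw [hl']; field_simp
  have hl1 : l ≤ 1 := by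
    rw [hl, div_le_one hm0]
    exact hm
  have hll : l' ≤ l := by
    rw [hl, hl']
    exact one_div_le_one_div_of_le hm0 hmm
  obtain ⟨δ, hδ⟩ : ∃ δ, δ = κ * ε ^ 2 := ⟨_, rfl⟩
  have hδ0 : 0 < δ := by rw [hδ]; positivity
  have hδκ : δ * κ = z := by rw [hδ, hzε]; ring
  have hδ1 : δ ≤ ε := by
    have : κ * ε ≤ 1 := by
      rw [← hεα, mul_comm]
      exact mul_le_mul_of_nonneg_left (by linarith) hε0.le
    calc δ = (κ * ε) * ε := by rw [hδ]; ring
      _ ≤ 1 * ε := mul_le_mul_of_nonneg_right this hε0.le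
      _ = ε := one_mul _
  have hδ2 : ε ≤ 21 * δ := by
    have : 1 ≤ 21 * (κ * ε) := by
      have h1 : ε * α ≤ ε * (21 * κ) := mul_le_mul_of_nonneg_left hκα' hε0.le
      rw [hεα] at h1
      linarith only [h1]
    calc ε = 1 * ε := (one_mul _).symm
      _ ≤ 21 * (κ * ε) * ε := mul_le_mul_of_nonneg_right this hε0.le
      _ = 21 * δ := by rw [hδ]; ring
  obtain ⟨w, hw⟩ : ∃ w, w = 1 / (κ + 1) := ⟨_, rfl⟩
  have hw0 : 0 < w := by rw [hw]; positivity
  have hwκ : w * (κ + 1) = 1 := by rw [hw]; field_simp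
  have hw1 : w ≤ 21 * ε := by
    rw [hw, div_le_iff₀ (by linarith)]
    have h1 : ε * α ≤ ε * (21 * κ) := mul_le_mul_of_nonneg_left hκα' hε0.le
    rw [hεα] at h1
    linarith only [h1, hε0]
  -- the correction term
  have hc2 : c ≤ 2 := by linarith only [hcq, hq1]
  have e1 : κ * (s * l) / α ^ 2 * c = δ * (s * l) * c := by
    rw [hδ, hε]
    field_simp
  rw [e1] at ih
  have e21 : 21 / α = 21 * ε := by rw [hε]; ring
  rw [e21] at ih ⊢
  have h1 : δ * (s * l) * c ≤ 20 * ε := by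
    have h2 : (s * l) * c ≤ 10 * 2 := mul_le_mul r10 hc2 hc0 (by norm_num)
    have h3 : 0 ≤ (s * l) * c := mul_nonneg r0 hc0
    calc δ * (s * l) * c = δ * (s * l * c) := by ring
      _ ≤ ε * (10 * 2) := mul_le_mul hδ1 h2 h3 hε0.le
      _ = 20 * ε := by ring
  have h1' : 0 ≤ δ * (s * l) * c := mul_nonneg (mul_nonneg hδ0.le r0) hc0
  have hqf : q ≤ f := by linarith only [ih, h1, h1', hε0]
  -- the combination
  have hX0 : 0 ≤ 1 - q := by linarith only [hq1]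
  have h6 : 1 - z' * (s' * l') ≤ l * (1 - q) := by
    have h7 : 1 - z' * (s' * l') = l' * (1 - f') := by
      rw [hp1]
      linear_combination -hl'm
    rw [h7]
    calc l' * (1 - f') ≤ l * (1 - f') := mul_le_mul_of_nonneg_right hll (by linarith only [f1'])
      _ ≤ l * (1 - q) := mul_le_mul_of_nonneg_left (by linarith only [hqf, hmono]) hl0.le
  have hB : 4 * l * (1 - q) * w ≤ 1 := by
    have h7 : l * (1 - q) ≤ 1 * 1 := mul_le_mul hl1 (by linarith only [hq0]) hX0 (by norm_num)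
    have h8 : l * (1 - q) * w ≤ 1 * 1 * (21 * ε) :=
      mul_le_mul h7 hw1 hw0.le (by norm_num)
    have h9 : ε ≤ 1 / 84 := hε9.trans (by norm_num)
    linarith only [h8, h9]
  have F1' : q' - q ≤ c' * w := by
    rw [hw, mul_one_div]
    exact F1
  have F3' : κ * w * ((1 - q) * (1 / 3 * c' + 4 / 3 * q')) + 5 / 6 * c ^ 2 ≤ κ ^ 2 * t := by
    rw [hw, mul_one_div]
    exact F3
  have h10 := comb hκ0 hw0 hwκ hl0 hX0 hB hc'0 F1' F3' h6
  have e2 : (κ + 1) * (s' * l') / α ^ 2 * c' = w * (z' * (s' * l')) * c' := by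
    rw [hz'ε]
    have e3 : w * ((κ + 1) ^ 2 * ε ^ 2 * (s' * l')) * c' =
        (w * (κ + 1)) * ((κ + 1) * (s' * l') * ε ^ 2 * c') := by ring
    rw [e3, hwκ, hε]
    field_simp
  rw [e2]
  -- the terms on the right
  have h11 : 3 * l * κ * t ≤ 15 / 2 * (l * δ) := by
    have h12 : κ * t ≤ 5 / 2 * δ := by
      have h13 : κ * t = δ * (α ^ 2 * t) := by
        rw [hδ]
        linear_combination (-(κ * t) * (ε * α + 1)) * hεα
      rw [h13]
      have h13' := mul_le_mul_of_nonneg_left ht hδ0.le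
      linarith only [h13']
    have h14 := mul_le_mul_of_nonneg_left h12 hl0.le
    linarith only [h14]
  have h15 : δ * (s * l) * c - 5 / 2 * (l / κ) * c ^ 2 ≤ δ * l * (1 / 10 * z * s ^ 2) := by
    have h16 : 0 ≤ l / κ * (5 / 2 * (c - z * s / 5) ^ 2) := by positivity
    have h17 : l / κ * (5 / 2 * (c - z * s / 5) ^ 2) =
        5 / 2 * (l / κ) * c ^ 2 - δ * (s * l) * c + δ * l * (1 / 10 * z * s ^ 2) := by
      have e4 : δ = z / κ := by
        rw [← hδκ]
        field_simp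
      rw [e4]
      field_simp
      ring
    linarith only [h16, h17]
  -- the quadratic term
  obtain ⟨G, hG⟩ : ∃ G, G = f - (q - δ * (s * l) * c) := ⟨_, rfl⟩
  have hG0 : 21 * ε ≤ G := by rw [hG]; linarith only [ih]
  have h18 : f * (1 - f) - G ≤ q * (1 - q) := by
    have h19 : 0 ≤ (f - q) * (q + f) :=
      mul_nonneg (by linarith only [hqf]) (by linarith only [hq0, f0])
    linarith only [h19, h1', hG]
  have h20 : 4 * l * w * (f * (1 - f)) - 4 * w * G ≤ 4 * l * w * (q * (1 - q)) := by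
    have h21 := mul_le_mul_of_nonneg_left h18 (by positivity : 0 ≤ 4 * l * w)
    have h22 : l * (w * G) ≤ 1 * (w * G) :=
      mul_le_mul_of_nonneg_right hl1 (mul_nonneg hw0.le (by linarith only [hG0, hε0]))
    linarith only [h21, h22]
  have h23 : δ * l * (4 * g * (1 - f)) - 6 * ε ^ 2 ≤ 4 * l * w * (f * (1 - f)) := by
    -- `w = 1/κ - w/κ`
    have e5 : f = δ * κ * g := by rw [hδκ]; exact hfz
    have e6 : 4 * l * w * (f * (1 - f)) = δ * l * (4 * g * (1 - f)) * (w * κ) := by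
      rw [show 4 * l * w * (f * (1 - f)) = 4 * l * w * (1 - f) * f by ring]
      nth_rewrite 2 [e5]
      ring
    have e7 : w * κ = 1 - w := by linarith only [hwκ]
    rw [e6, e7]
    have h24 : 0 ≤ l * (1 - f) := mul_nonneg hl0.le (by linarith only [f1])
    have h25 : l * (1 - f) ≤ 1 := by
      calc l * (1 - f) ≤ 1 * 1 := mul_le_mul hl1 (by linarith only [f0]) (by linarith only [f1])
            (by norm_num)
        _ = 1 := by norm_num
    have h26 : δ * w ≤ ε ^ 2 := by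
      have e8 : δ * w = ε ^ 2 * (w * κ) := by rw [hδ]; ring
      rw [e8, e7]
      have h26' : 0 ≤ ε ^ 2 * w := by positivity
      linarith only [h26']
    have h27 : δ * w * (g * (l * (1 - f))) ≤ ε ^ 2 * (63 / 50 * 1) :=
      mul_le_mul h26 (mul_le_mul hps2 h25 h24 (by norm_num))
        (mul_nonneg (by linarith only [hps1]) h24) (by positivity)
    have h28 : 0 ≤ ε ^ 2 := by positivity
    linarith only [h27, h28]
  -- the main inequality
  have h29 : δ * l * (1 / 10 * z * s ^ 2) + 15 / 2 * (l * δ) - δ * l * (4 * g * (1 - f)) ≤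
      δ * (2 * d - 1 / 200) := by
    have h30 : δ * l * (15 / 2 + 1 / 10 * z * s ^ 2 + 1 / 200 * m) ≤
        δ * l * (2 * m * d + 4 * g * (1 - f)) :=
      mul_le_mul_of_nonneg_left hmain (by positivity)
    have e9 : δ * l * (2 * m * d + 4 * g * (1 - f)) =
        δ * (2 * d) * (l * m) + δ * l * (4 * g * (1 - f)) := by ring
    have e10 : δ * l * (15 / 2 + 1 / 10 * z * s ^ 2 + 1 / 200 * m) =
        δ * l * (1 / 10 * z * s ^ 2) + 15 / 2 * (l * δ) + δ * (1 / 200) * (l * m) := by ring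
    rw [e9, e10, hlm] at h30
    linarith only [h30]
  -- the growth of the barrier
  have e11 : z' - z = 2 * δ + ε ^ 2 := by
    rw [hzε, hz'ε, hδ]
    ring
  have h31 : ε ^ 2 ≤ δ := by
    have : ε * ε ≤ 1 / 10 ^ 9 * ε := mul_le_mul_of_nonneg_right hε9 hε0.le
    have h32 : ε ^ 2 = ε * ε := by ring
    rw [h32]
    linarith only [this, hδ2, hδ0]
  have h33 : d * (2 * δ) ≤ d * (z' - z) := by
    apply mul_le_mul_of_nonneg_left _ hd0
    rw [e11]
    have h33' := sq_nonneg ε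
    linarith only [h33']
  have h34 : (z' - z) ^ 2 ≤ 9 * ε ^ 2 := by
    have h35 : (z' - z) ^ 2 ≤ (3 * ε) ^ 2 := by
      apply pow_le_pow_left₀
      · rw [e11]; positivity
      · rw [e11]; linarith only [hδ1, h31]
    linarith only [h35, (by ring : (3 * ε) ^ 2 = 9 * ε ^ 2)]
  have h36 : w * ε ≤ 21 * ε ^ 2 := by
    calc w * ε ≤ 21 * ε * ε := mul_le_mul_of_nonneg_right hw1 hε0.le
      _ = 21 * ε ^ 2 := by ring
  have h37 : ε ^ 2 ≤ 1 / 10 ^ 9 * (21 * δ) := by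
    calc ε ^ 2 = ε * ε := by ring
      _ ≤ 1 / 10 ^ 9 * (21 * δ) := mul_le_mul hε9 hδ2 hε0.le (by norm_num)
  have h38 : (1 - 4 * w) * (21 * ε) ≤ (1 - 4 * w) * G := by
    apply mul_le_mul_of_nonneg_left hG0
    have h39 : ε ≤ 1 / 84 := hε9.trans (by norm_num)
    linarith only [h39, hw1]
  have hGe : q = f - G + δ * (s * l) * c := by rw [hG]; ring
  linarith only [h10, h11, h15, h20, h23, h29, hder, h33, h34, h36, h37, h38, hGe, hδ0]

theorem s_ch2 (h : S_PO2) : S_CH2 := by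
  refine ⟨10 ^ 9, fun a ha p y t hp0 hp1 hp2 hpos hpa hpn hyn g1 g2 g3 => ?_⟩
  by_contra hcon
  push Not at hcon
  have hα : (10 : ℝ) ^ 9 ≤ a := by exact_mod_cast ha
  have hα0 : (0 : ℝ) < a := by linarith [hα, (by norm_num : (0 : ℝ) < 10 ^ 9)]
  have ha2 : 2 ≤ a := le_trans (by norm_num) ha
  set q : ℕ → ℝ := fun k => 1 - p (k + 1) / p k with hq
  set c : ℕ → ℝ := fun k => k * y (k - 1) / p k with hc
  have q1 : q 1 = 0 := by
    simp only [hq]
    rw [hp2, hp1]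
    norm_num
  have qa : q a = 1 := by
    simp only [hq]
    rw [hpa]
    simp
  have qle : ∀ k, k ≤ a → q k ≤ 1 := by
    intro k hk
    simp only [hq]
    have := div_nonneg (hpn (k + 1)) (hpos k hk).le
    linarith
  have c0 : ∀ k, k ≤ a → 0 ≤ c k := by
    intro k hk
    simp only [hc]
    exact div_nonneg (mul_nonneg (Nat.cast_nonneg _) (hyn _)) (hpos k hk).le
  have F1 : ∀ k, k + 1 ≤ a → q (k + 1) - q k ≤ c (k + 1) / ((k : ℝ) + 1) := by
    intro k hk
    have h1 := g1 k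
    have a1 := hpos k (by omega)
    have a2 := hpos (k + 1) hk
    have e : c (k + 1) / ((k : ℝ) + 1) = y k / p (k + 1) := by
      simp only [hc]
      rw [Nat.add_sub_cancel]
      push_cast
      field_simp
    rw [e]
    simp only [hq]
    have e2 : 1 - p (k + 1 + 1) / p (k + 1) - (1 - p (k + 1) / p k) =
        p (k + 1) / p k - p (k + 2) / p (k + 1) := by ring
    rw [e2, sub_le_iff_le_add, ← add_div, div_le_div_iff₀ a1 a2]
    nlinarith
  have F2 : ∀ k, 1 ≤ k → k ≤ a → c k ≤ 2 * q k := by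
    intro k hk1 hk
    obtain ⟨j, rfl⟩ : ∃ j, k = j + 1 := ⟨k - 1, by omega⟩
    have h1 := g2 j
    have a2 := hpos (j + 1) hk
    simp only [hc, hq]
    rw [Nat.add_sub_cancel, div_le_iff₀ a2]
    push_cast
    have : 2 * (1 - p (j + 1 + 1) / p (j + 1)) * p (j + 1) = 2 * (p (j + 1) - p (j + 2)) := by
      field_simp
    rw [this]
    exact h1
  have q0 : ∀ k, 1 ≤ k → k ≤ a → 0 ≤ q k := by
    intro k hk1 hk
    have h1 := F2 k hk1 hk
    have h2 := c0 k hk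
    linarith
  have F3 : ∀ k, 1 ≤ k → k + 1 ≤ a →
      (k : ℝ) / ((k : ℝ) + 1) * ((1 - q k) * (1 / 3 * c (k + 1) + 4 / 3 * q (k + 1))) +
        5 / 6 * c k ^ 2 ≤ (k : ℝ) ^ 2 * t := by
    intro k hk1 hk
    obtain ⟨j, rfl⟩ : ∃ j, k = j + 1 := ⟨k - 1, by omega⟩
    have h1 := g3 j
    have a2 := hpos (j + 1) (by omega)
    have a3 := hpos (j + 1 + 1) hk
    have hj : (0 : ℝ) < (j : ℝ) + 1 := by positivity
    have hj2 : (0 : ℝ) < (j : ℝ) + 2 := by positivity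
    have e : (1 - q (j + 1)) * c (j + 1 + 1) = ((j : ℝ) + 2) * (y (j + 1) / p (j + 1)) := by
      simp only [hc, hq]
      rw [Nat.add_sub_cancel]
      push_cast
      field_simp
      ring
    have e' : (1 - q (j + 1)) * q (j + 1 + 1) = (p (j + 2) - p (j + 3)) / p (j + 1) := by
      simp only [hq]
      field_simp
      ring
    have e2 : c (j + 1) = ((j : ℝ) + 1) * y j / p (j + 1) := by
      simp only [hc]
      rw [Nat.add_sub_cancel]
      push_cast
      ring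
    have e4 : (1 - q (j + 1)) * (1 / 3 * c (j + 1 + 1) + 4 / 3 * q (j + 1 + 1)) =
        1 / 3 * (((j : ℝ) + 2) * (y (j + 1) / p (j + 1))) +
          4 / 3 * ((p (j + 2) - p (j + 3)) / p (j + 1)) := by
      rw [← e, ← e']
      ring
    rw [e4, e2]
    push_cast
    have e3 : ((j : ℝ) + 1) / ((j : ℝ) + 1 + 1) * (1 / 3 * (((j : ℝ) + 2) *
          (y (j + 1) / p (j + 1))) + 4 / 3 * ((p (j + 2) - p (j + 3)) / p (j + 1))) +
        5 / 6 * (((j : ℝ) + 1) * y j / p (j + 1)) ^ 2 =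
        ((j : ℝ) + 1) * (1 / 3 * y (j + 1) * p (j + 1) +
          4 / 3 * (p (j + 2) - p (j + 3)) * p (j + 1) / ((j : ℝ) + 2) +
          5 / 6 * ((j : ℝ) + 1) * y j ^ 2) / p (j + 1) ^ 2 := by
      have e5 : (j : ℝ) + 1 + 1 = (j : ℝ) + 2 := by ring
      rw [e5]
      field_simp
    rw [e3, div_le_iff₀ (by positivity)]
    have h2 := mul_le_mul_of_nonneg_left h1 hj.le
    linarith
  have hq2 : q 2 ≤ t := by
    have h1 := F1 1 (by omega)
    have h2 := F3 1 le_rfl (by omega)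
    rw [q1] at h1 h2
    have h3 := sq_nonneg (c 1)
    norm_num at h1 h2
    linarith
  have ht0 : 0 ≤ t := (q0 2 (by norm_num) ha2).trans hq2
  have F4 : ∀ k, 2 ≤ k → k ≤ a → q k ≤ (k : ℝ) * ((k : ℝ) - 1) * t / 2 := by
    intro k hk
    induction k, hk using Nat.le_induction with
    | base =>
      intro _
      norm_num
      exact hq2
    | succ k hk ih =>
      intro hka
      have ih := ih (by omega)
      have h1 := F1 k hka
      have h2 := F2 (k + 1) (by omega) hka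
      have hk2 : (2 : ℝ) ≤ k := by exact_mod_cast hk
      have hk1 : (0 : ℝ) < (k : ℝ) + 1 := by positivity
      have h3 : c (k + 1) / ((k : ℝ) + 1) ≤ 2 * q (k + 1) / ((k : ℝ) + 1) := by gcongr
      have h4 : (q (k + 1) - q k) * ((k : ℝ) + 1) ≤ 2 * q (k + 1) := by
        rw [← le_div_iff₀ hk1]
        exact h1.trans h3
      have h5 : ((k : ℝ) - 1) * q (k + 1) ≤ ((k : ℝ) - 1) * (((k : ℝ) + 1) * k * t / 2) := by
        have h6 : ((k : ℝ) + 1) * q k ≤ ((k : ℝ) + 1) * ((k : ℝ) * ((k : ℝ) - 1) * t / 2) :=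
          mul_le_mul_of_nonneg_left ih hk1.le
        nlinarith
      have h7 := le_of_mul_le_mul_left h5 (by linarith)
      push_cast
      have e : ((k : ℝ) + 1) * ((k : ℝ) + 1 - 1) * t / 2 = ((k : ℝ) + 1) * k * t / 2 := by ring
      rw [e]
      exact h7
  have hr := @r2_le h
  obtain ⟨p1, pP1, p3, p4, p5⟩ := h
  -- the claim
  set k0 : ℕ := a / 20 with hk0
  have hk0a : 20 * k0 ≤ a := by omega
  have hk0b : a ≤ 20 * k0 + 19 := by omega
  have hk0a' : 20 * (k0 : ℝ) ≤ a := by exact_mod_cast hk0a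
  have hk0b' : (a : ℝ) ≤ 20 * k0 + 19 := by exact_mod_cast hk0b
  have claim : ∀ k, k0 ≤ k → k ≤ a →
      q k - (k : ℝ) * r2 (((k : ℝ) / a) ^ 2) / (a : ℝ) ^ 2 * c k ≤
        Pb (((k : ℝ) / a) ^ 2) - 21 / a := by
    intro k hk
    induction k, hk using Nat.le_induction with
    | base =>
      intro hka
      set z : ℝ := ((k0 : ℝ) / a) ^ 2 with hz
      have hz0 : 0 ≤ z := by positivity
      have hza : z * (a : ℝ) ^ 2 = (k0 : ℝ) ^ 2 := by
        rw [hz, div_pow, div_mul_cancel₀ _ (by positivity)]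
      have hz1 : z ≤ 1 / 400 := by
        rw [hz, div_pow, div_le_iff₀ (by positivity)]
        nlinarith
      have hz2 : 1 / 441 ≤ z := by
        rw [hz, div_pow, le_div_iff₀ (by positivity)]
        have h1 : (a : ℝ) ≤ 21 * k0 := by
          have : (19 : ℝ) ≤ k0 := by linarith [hk0b', hα, (by norm_num : (10 : ℝ) ^ 9 = 1000000000)]
          linarith
        nlinarith
      have h1 := p5 z hz0 (by linarith)
      have h2 := F4 k0 (by omega) hka
      obtain ⟨r0, -⟩ := hr hz0 (by linarith)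
      have h3 : 0 ≤ (k0 : ℝ) * r2 z / (a : ℝ) ^ 2 * c k0 :=
        mul_nonneg (div_nonneg (mul_nonneg (Nat.cast_nonneg _) r0) (by positivity)) (c0 k0 hka)
      have h4 : (k0 : ℝ) * ((k0 : ℝ) - 1) * t / 2 ≤ 5 / 4 * z := by
        have h5 : (k0 : ℝ) * ((k0 : ℝ) - 1) * t ≤ (k0 : ℝ) ^ 2 * t := by
          apply mul_le_mul_of_nonneg_right _ ht0
          nlinarith [(Nat.cast_nonneg k0 : (0 : ℝ) ≤ k0)]
        have h6 : (k0 : ℝ) ^ 2 * t = z * ((a : ℝ) ^ 2 * t) := by rw [← hza]; ring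
        have h7 : z * ((a : ℝ) ^ 2 * t) ≤ z * (5 / 2) :=
          mul_le_mul_of_nonneg_left hcon.le hz0
        linarith
      have h8 : 21 / (a : ℝ) ≤ z / 200 := by
        rw [div_le_iff₀ hα0]
        nlinarith
      linarith
    | succ k hk ih =>
      intro hka
      have ih := ih (by omega)
      have hk1 : 1 ≤ k := by omega
      have hk21 : (a : ℝ) ≤ 21 * k := by
        have h1 : a ≤ 21 * k := by omega
        exact_mod_cast h1
      have := step ⟨p1, pP1, p3, p4, p5⟩ (α := a) (κ := k) (t := t) (q := q k) (q' := q (k + 1))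
        (c := c k) (c' := c (k + 1)) hα hk21 (by exact_mod_cast hka)
        (c0 k (by omega)) (F2 k hk1 (by omega)) (q0 k hk1 (by omega)) (qle k (by omega))
        (c0 (k + 1) hka) (F1 k hka) (F3 k hk1 hka) hcon.le ih
      push_cast
      exact this
  have hfin := claim a (by omega) le_rfl
  rw [div_self hα0.ne', one_pow, pP1, qa] at hfin
  obtain ⟨r0, r1⟩ := hr (z := 1) zero_le_one le_rfl
  have h1 := F2 a (by omega) le_rfl
  rw [qa] at h1
  have h2 := c0 a le_rfl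
  have h3 : (a : ℝ) * r2 1 / (a : ℝ) ^ 2 * c a = r2 1 * c a / a := by
    field_simp
  rw [h3] at hfin
  have h4 : r2 1 * c a / a ≤ 20 / a := by
    gcongr
    nlinarith
  have h5 : (20 : ℝ) / a < 21 / a := by
    gcongr
    norm_num
  linarith

end Pool.Agent.Y155.DC4
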